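import Pool.Agent.Q170.GO.Sub

/-!
# Where does a given simple object occur in the cohomology of varieties?
-/

set_option autoImplicit false

open CategoryTheory CategoryTheory.Limits AlgebraicGeometry Pool.Agent.Y116.UV Pool.Agent.Z125.UN
  Pool.Agent.Q193.LT Pool.Agent.Q148.LI

universe v u

namespace Pool.Agent.Q170.GO

/-- A cohomology theory for the schemes over `R` with values in the abelian category `A`:

* `H j X` is the cohomology with compact supports `H^j_c(X)`;
* `G w j X` is its part of weight `w`;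
* `tw a` is the Tate twist. -/
structure Data (R : Type) [CommRing R] (A : Type u) [Category.{v} A] where
  H : ℤ → Sch R → A
  G : ℤ → ℤ → Sch R → A
  tw : ℤ → A ⥤ A

variable {R : Type} [CommRing R] {A : Type u} [Category.{v} A]

/-- The cohomology with compact supports. -/
def Data.cpt (D : Data R A) : CompactData R A := ⟨D.H, D.tw⟩

/-- The parts of given weight. -/
def Data.wt (D : Data R A) : WtData R A := ⟨D.G, fun a M => (D.tw a).obj M⟩

variable [Abelian A]

/-- `S` is a subquotient of a Tate twist of `M`. -/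
def Data.Occ (D : Data R A) (S M : A) : Prop := ∃ b, Sub S ((D.tw b).obj M)

/-- Known properties of the cohomology theory over a ring `R`.

* `cpt`, `wt`: the standard properties `IsCompact` and `IsWt` (long exact sequences, affine bundles,
  products with `𝔾_m`, weights at most `j`);
* `simple`, `point`: the cohomology of a point is the unit object `one` in degree zero; the Tate twists of
  `one` are simple;
* `top`: in the degrees `j ≥ 2 n` the cohomology of a closed subscheme of `𝔸^n` is zero or `one(-n)`. -/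
structure IsTheory (D : Data R A) (one : A) : Prop where
  cpt : IsCompact D.cpt
  wt : IsWt D.wt
  simple : ∀ a, Simple ((D.tw a).obj one)
  point : ∀ n, IsZero (D.H n (aff R R)) ∨ Nonempty (D.H n (aff R R) ≅ one)
  top : ∀ (n : ℕ) (I : Ideal (MvPolynomial (Fin n) R)) (w j : ℤ), 2 * n ≤ j →
    IsZero (D.G w j (aff R (MvPolynomial (Fin n) R ⧸ I))) ∨
      Nonempty (D.G w j (aff R (MvPolynomial (Fin n) R ⧸ I)) ≅ (D.tw (-n)).obj one)

variable {D : Data R A} {one S : A}

/-- The Tate twists are equivalences. -/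
lemma tw_equiv (h : IsCompact D.cpt) (a : ℤ) : (D.tw a).IsEquivalence := by
  obtain ⟨e0⟩ := h.twZero
  obtain ⟨e1⟩ := h.twAdd a (-a)
  obtain ⟨e2⟩ := h.twAdd (-a) a
  have h1 : D.cpt.tw (a + -a) = D.cpt.tw 0 := by rw [add_neg_cancel]
  have h2 : D.cpt.tw (-a + a) = D.cpt.tw 0 := by rw [neg_add_cancel]
  let η : 𝟭 A ≅ D.tw a ⋙ D.tw (-a) := (e1 ≪≫ eqToIso h1 ≪≫ e0).symm
  let ε : D.tw (-a) ⋙ D.tw a ≅ 𝟭 A := e2 ≪≫ eqToIso h2 ≪≫ e0
  exact (CategoryTheory.Equivalence.mk (D.tw a) (D.tw (-a)) η ε).isEquivalence_functor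

lemma tw_add (h : IsCompact D.cpt) (a b : ℤ) (M : A) :
    Nonempty ((D.tw b).obj ((D.tw a).obj M) ≅ (D.tw (a + b)).obj M) := by
  obtain ⟨e⟩ := h.twAdd a b
  exact ⟨e.app M⟩

/-- `S` does not occur. -/
def Data.NotOcc (D : Data R A) (S M : A) : Prop := ¬ D.Occ S M

lemma occ_mono (h : IsCompact D.cpt) {X Y : A} (f : X ⟶ Y) (hf : Mono f) (hX : D.Occ S X) :
    D.Occ S Y := by
  obtain ⟨b, hb⟩ := hX
  have := tw_equiv h b
  exact ⟨b, hb.mono ((D.tw b).map f) inferInstance⟩

lemma occ_iso {X Y : A} (e : X ≅ Y) (hX : D.Occ S X) : D.Occ S Y := by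
  obtain ⟨b, hb⟩ := hX
  exact ⟨b, hb.iso ((D.tw b).mapIso e)⟩

lemma occ_twist (h : IsCompact D.cpt) (a : ℤ) (M : A) :
    D.Occ S ((D.tw a).obj M) ↔ D.Occ S M := by
  constructor
  · rintro ⟨b, hb⟩
    obtain ⟨e⟩ := tw_add h a b M
    exact ⟨a + b, hb.iso e⟩
  · rintro ⟨b, hb⟩
    obtain ⟨e⟩ := tw_add h a (b - a) M
    rw [add_sub_cancel] at e
    exact ⟨b - a, hb.iso e.symm⟩

lemma notOcc_zero (h : IsCompact D.cpt) [Simple S] {M : A} (hM : IsZero M) : ¬ D.Occ S M := by
  rintro ⟨b, hb⟩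
  have := tw_equiv h b
  exact not_sub_zero ((D.tw b).map_isZero hM) hb

lemma notOcc_serre (h : IsCompact D.cpt) [Simple S] : IsTateSerre D.cpt (D.NotOcc S) where
  zero := fun X hX => notOcc_zero h hX
  mid := by
    rintro X Y Z f g w hex hX hZ ⟨b, hb⟩
    have := tw_equiv h b
    have hadd : (D.tw b).Additive := h.twAdditive b
    have h1 := hex.map (D.tw b)
    rcases sub_mid h1 hb with h2 | h2
    · exact hX ⟨b, h2⟩
    · exact hZ ⟨b, h2⟩
  twist := fun a M hM h1 => hM ((occ_twist h a M).mp h1)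

/-- `S` is not a Tate twist of the unit object. -/
def Data.NotTate (D : Data R A) (one S : A) : Prop := ∀ a, IsEmpty (S ≅ (D.tw a).obj one)

lemma notOcc_one (h : IsTheory D one) [Simple S] (hS : D.NotTate one S) : ¬ D.Occ S one := by
  rintro ⟨b, hb⟩
  have := h.simple b
  obtain ⟨e⟩ := sub_simple hb
  exact (hS b).false e

lemma notOcc_point (h : IsTheory D one) [Simple S] (hS : D.NotTate one S) (n : ℤ) :
    D.NotOcc S (D.H n (aff R R)) := by
  rcases h.point n with h1 | ⟨⟨e⟩⟩
  · exact notOcc_zero h.cpt h1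
  · exact fun h2 => notOcc_one h hS (occ_iso e h2)

/-- The objects in which `S` does not occur are closed under subobjects, and so on. -/
lemma notOcc_sub (h : IsTheory D one) [Simple S] (hS : D.NotTate one S) :
    IsSub D.wt (D.NotOcc S) where
  mono := fun f hf hY hX => hY (occ_mono h.cpt f hf hX)
  twist := fun a M => not_congr (occ_twist h.cpt a M)
  top := by
    intro n I w j hj
    rcases h.top n I w j hj with h1 | ⟨⟨e⟩⟩
    · exact notOcc_zero h.cpt h1
    · exact fun h2 => notOcc_one h hS ((occ_twist h.cpt _ _).mp (occ_iso e h2))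

section field

variable {k : Type} [Field k] {D : Data k A}

/-- Known properties of the cohomology theory over a field.

* `device`: Jouanolou's device;
* `finDim`: separated schemes of finite type have finite dimension;
* `graded`: the simple subquotients of `H^j_c(X)` are those of its parts of weight `w`;
* `pure`: the cohomology of smooth projective schemes is pure;
* `resolve`: a simple subquotient of the part of weight `w` of `H^j_c(X)` is a subquotient of `H^w(Y)` for
  a smooth projective scheme `Y` of at most the dimension of `X` (Deligne; Hironaka or de Jong). -/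
structure IsGeo (D : Data k A) (one : A) : Prop extends IsTheory D one where
  device : Device D.wt
  finDim : ∀ X : Sch k, FT True X → ∃ n : ℕ, topologicalKrullDim X.left ≤ n
  graded : ∀ X : Sch k, FT True X → ∀ (j b : ℤ) (S : A), Simple S →
    (Sub S ((D.tw b).obj (D.H j X)) ↔ ∃ w, Sub S ((D.tw b).obj (D.G w j X)))
  pure : ∀ Y : Sch k, SmoothProj Y → ∀ w j, w ≠ j → IsZero (D.G w j Y)
  resolve : ∀ (X : Sch k) (n : ℕ), FT True X → topologicalKrullDim X.left ≤ n →
    ∀ (w j b : ℤ) (S : A), Simple S → Sub S ((D.tw b).obj (D.G w j X)) →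
      ∃ Y : Sch k, SmoothProj Y ∧ topologicalKrullDim Y.left ≤ n ∧ Sub S ((D.tw b).obj (D.H w Y))

/-- `S` occurs in the cohomology of a smooth projective scheme of dimension at most `n`. -/
def Data.From (D : Data k A) (S : A) (n : ℕ) : Prop :=
  ∃ Y : Sch k, SmoothProj Y ∧ topologicalKrullDim Y.left ≤ n ∧ ∃ i, D.Occ S (D.H i Y)

/-- **Dimension by dimension.** -/
theorem from_iff [PerfectField k] (h : IsGeo D one) [Simple S] (hS : D.NotTate one S) (n : ℕ) :
    D.From S n ↔ ∃ (a b c : ℕ) (T : Fin a → Fin b → Fin c → k),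
      (a ≤ n + 2 ∨ b ≤ n + 2 ∨ c ≤ n + 2) ∧ ∃ i, D.Occ S (D.H i (hypS T)) := by
  have hb := bnd_compact h.cpt (notOcc_serre h.cpt (S := S)) (notOcc_point h.toIsTheory hS)
  have h1 := dim_iff hb n
  constructor
  · intro hF
    by_contra hc
    push Not at hc
    have h2 := h1.mpr fun a b c T hT i => hc a b c T hT i
    obtain ⟨Y, hY, hn, i, hi⟩ := hF
    exact h2 Y hY.ft hn i hi
  · intro hF
    by_contra hc
    obtain ⟨a, b, c, T, hT, i, hi⟩ := hF
    refine h1.mp (fun X hX hn i hi => hc ?_) a b c T hT i hi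
    obtain ⟨b, hb⟩ := hi
    obtain ⟨w, hw⟩ := (h.graded X hX i b S ‹_›).mp hb
    obtain ⟨Y, hY, hn', h2⟩ := h.resolve X n hX hn w i b S ‹_› hw
    exact ⟨Y, hY, hn', w, b, h2⟩

/-- **All schemes, and one weight.** -/
theorem occ_iff (h : IsGeo D one) [Simple S] (hS : D.NotTate one S) :
    List.TFAE [
      ∃ Y : Sch k, SmoothProj Y ∧ ∃ i, D.Occ S (D.H i Y),
      ∃ X : Sch k, FT True X ∧ ∃ i, D.Occ S (D.H i X),
      ∃ (a b c : ℕ) (T : Fin a → Fin b → Fin c → k), ∃ j, D.Occ S (D.G (j - 1) j (hypS T))] := by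
  tfae_have 1 → 2 := fun ⟨Y, hY, i, hi⟩ => ⟨Y, hY.ft, i, hi⟩
  tfae_have 2 → 1 := by
    rintro ⟨X, hX, i, b, hi⟩
    obtain ⟨w, hw⟩ := (h.graded X hX i b S ‹_›).mp hi
    obtain ⟨n, hn⟩ := h.finDim X hX
    obtain ⟨Y, hY, -, h2⟩ := h.resolve X n hX hn w i b S ‹_› hw
    exact ⟨Y, hY, w, b, h2⟩
  tfae_have 3 → 2 := by
    rintro ⟨a, b, c, T, j, e, he⟩
    exact ⟨hypS T, ft_aff True, j, e, (h.graded _ (ft_aff True) j e S ‹_›).mpr ⟨_, he⟩⟩
  tfae_have 1 → 3 := by
    rintro ⟨Y, hY, i, b, hi⟩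
    by_contra hc
    push Not at hc
    have h1 := one_piece h.wt (notOcc_sub h.toIsTheory hS) h.device
      (fun a b c T j => hc a b c T j) Y hY i
    obtain ⟨w, hw⟩ := (h.graded Y hY.ft i b S ‹_›).mp hi
    by_cases hwi : w = i
    · subst hwi
      exact h1 ⟨b, hw⟩
    · have := tw_equiv h.cpt b
      exact not_sub_zero ((D.tw b).map_isZero (h.pure Y hY w i hwi)) hw
  tfae_finish

/-- **Hypergraphs**, over prime fields. -/
theorem occ_graph (hk : Frac k) (h : IsGeo D one) [Simple S] (hS : D.NotTate one S)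
    (hY : ∃ Y : Sch k, SmoothProj Y ∧ ∃ i, D.Occ S (D.H i Y)) :
    ∃ (a b c : ℕ) (H : Finset (Fin a × Fin b × Fin c)), ∃ j,
      D.Occ S (D.G (j - 1) j (tripS k H)) := by
  obtain ⟨Y, hY, i, b, hi⟩ := hY
  by_contra hc
  push Not at hc
  have h1 := one_piece_graph hk h.wt (notOcc_sub h.toIsTheory hS) h.device
    (fun a b c T j => hc a b c T j) Y hY i
  obtain ⟨w, hw⟩ := (h.graded Y hY.ft i b S ‹_›).mp hi
  by_cases hwi : w = i
  · subst hwi
    exact h1 ⟨b, hw⟩
  · have := tw_equiv h.cpt b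
    exact not_sub_zero ((D.tw b).map_isZero (h.pure Y hY w i hwi)) hw

end field

end Pool.Agent.Q170.GO
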