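import Pool.Agent.Q170.GO.Occ

/-!
# Semisimple objects of geometric origin, for theories with trivial Tate twists
-/

set_option autoImplicit false

open CategoryTheory CategoryTheory.Limits AlgebraicGeometry Pool.Agent.Y116.UV Pool.Agent.Z125.UN
  Pool.Agent.Q193.LT Pool.Agent.Q148.LI

universe v u

namespace Pool.Agent.Q170.GO

attribute [local instance] HasFiniteBiproducts.of_hasFiniteProducts

variable {A : Type u} [Category.{v} A] [Abelian A] {k : Type} [Field k]

/-- `M` is of geometric origin: it is a subquotient of the cohomology of a smooth projective scheme. -/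
def Data.Geometric (D : Data k A) (M : A) : Prop :=
  ∃ Y : Sch k, SmoothProj Y ∧ ∃ i, Sub M (D.H i Y)

/-- The Tate twists are trivial (the base field contains an algebraically closed field), and known
constructions of smooth projective schemes:

* `union`: disjoint unions;
* `shift`: products with a constant elliptic curve;
* `unit`: the cohomology in degree zero of a point. -/
structure IsConst (D : Data k A) (one : A) : Prop where
  triv : ∀ b, Nonempty (D.tw b ≅ 𝟭 A)
  union : ∀ (n : ℕ) (Y : Fin n → Sch k), (∀ i, SmoothProj (Y i)) → ∃ Y' : Sch k, SmoothProj Y' ∧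
    ∀ j, ∃ s : (⨁ fun i => D.H j (Y i)) ⟶ D.H j Y', Mono s
  shift : ∀ Y : Sch k, SmoothProj Y → ∃ Y' : Sch k, SmoothProj Y' ∧
    ∀ j, ∃ s : D.H j Y ⟶ D.H (j + 1) Y', Mono s
  unit : ∃ Y : Sch k, SmoothProj Y ∧ Nonempty (D.H 0 Y ≅ one)

variable {D : Data k A} {one S : A}

lemma occ_triv (hc : IsConst D one) (M : A) : D.Occ S M ↔ Sub S M := by
  constructor
  · rintro ⟨b, hb⟩
    obtain ⟨e⟩ := hc.triv b
    exact hb.iso (e.app M)
  · intro h
    obtain ⟨e⟩ := hc.triv 0
    exact ⟨0, h.iso (e.app M).symm⟩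

lemma shift_many (hc : IsConst D one) (m : ℕ) : ∀ Y : Sch k, SmoothProj Y →
    ∃ Y' : Sch k, SmoothProj Y' ∧ ∀ j, ∃ s : D.H j Y ⟶ D.H (j + m) Y', Mono s := by
  induction m with
  | zero =>
    intro Y hY
    refine ⟨Y, hY, fun j => ?_⟩
    rw [Nat.cast_zero, add_zero]
    exact ⟨𝟙 _, inferInstance⟩
  | succ m ih =>
    intro Y hY
    obtain ⟨Y1, h1, h2⟩ := ih Y hY
    obtain ⟨Y2, h3, h4⟩ := hc.shift Y1 h1
    refine ⟨Y2, h3, fun j => ?_⟩
    obtain ⟨s, hs⟩ := h2 j
    obtain ⟨t, ht⟩ := h4 (j + m)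
    have e : j + ((m + 1 : ℕ) : ℤ) = j + m + 1 := by push_cast; ring
    rw [e]
    exact ⟨s ≫ t, mono_comp _ _⟩

lemma Sub.quotient {S S' M : A} (h : Sub S M) (f : S ⟶ S') (hf : Epi f) : Sub S' M := by
  obtain ⟨N, i, q, hi, hq⟩ := h
  exact ⟨N, i, q ≫ f, hi, epi_comp _ _⟩

lemma sub_biproduct {n : ℕ} {S M : Fin n → A} (h : ∀ i, Sub (S i) (M i)) :
    Sub (⨁ S) (⨁ M) := by
  choose N i q hi hq using h
  exact ⟨⨁ N, biproduct.map i, biproduct.map q, inferInstance, inferInstance⟩

/-- A finite direct sum is of geometric origin if and only if all its summands are. -/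
theorem geometric_biproduct (hc : IsConst D one) {n : ℕ} (S : Fin n → A)
    (hneg : ∀ Y : Sch k, SmoothProj Y → ∀ i : ℤ, i < 0 → IsZero (D.H i Y))
    (hS : ∀ i, Simple (S i)) :
    D.Geometric (⨁ S) ↔ ∀ i, D.Geometric (S i) := by
  constructor
  · rintro ⟨Y, hY, j, hj⟩ i
    exact ⟨Y, hY, j, hj.quotient (biproduct.π S i) inferInstance⟩
  · intro h
    choose Y hY j hj using h
    -- the degrees are natural numbers
    have h0 : ∀ i, 0 ≤ j i := by
      intro i
      by_contra hi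
      have := hS i
      exact not_sub_zero (hneg _ (hY i) _ (not_le.mp hi)) (hj i)
    let m : ℕ := ∑ i, (j i).toNat
    have h1 : ∀ i, ∃ Y' : Sch k, SmoothProj Y' ∧ Sub (S i) (D.H m Y') := by
      intro i
      have h2 : (j i).toNat ≤ m :=
        Finset.single_le_sum (f := fun i => (j i).toNat) (fun _ _ => Nat.zero_le _)
          (Finset.mem_univ i)
      obtain ⟨d, hd⟩ := Nat.exists_eq_add_of_le h2
      obtain ⟨Y', hY', hs⟩ := shift_many hc d (Y i) (hY i)
      obtain ⟨s, hs⟩ := hs (j i)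
      have h3 : j i + (d : ℤ) = m := by
        rw [hd, Nat.cast_add, Int.toNat_of_nonneg (h0 i)]
      rw [h3] at s
      obtain ⟨s', hs'⟩ : ∃ s : D.H (j i) (Y i) ⟶ D.H m Y', Mono s := by
        rw [← h3]
        exact ⟨_, hs⟩
      exact ⟨Y', hY', (hj i).mono s' hs'⟩
    choose Y' hY' hs using h1
    obtain ⟨Z, hZ, hm⟩ := hc.union n Y' hY'
    obtain ⟨s, hs'⟩ := hm m
    exact ⟨Z, hZ, m, (sub_biproduct hs).mono s hs'⟩

/-- **Semisimple objects.** A direct sum of simple objects is of geometric origin if and only if all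
summands that are different from the unit object are subquotients of one weight of the cohomology of
cubics. -/
theorem semi_iff (h : IsGeo D one) (hc : IsConst D one)
    (hneg : ∀ Y : Sch k, SmoothProj Y → ∀ i : ℤ, i < 0 → IsZero (D.H i Y))
    {n : ℕ} (S : Fin n → A) (hS : ∀ i, Simple (S i)) :
    D.Geometric (⨁ S) ↔ ∀ i, Nonempty (S i ≅ one) ∨
      ∃ (a b c : ℕ) (T : Fin a → Fin b → Fin c → k), ∃ j, Sub (S i) (D.G (j - 1) j (hypS T)) := by
  rw [geometric_biproduct hc S hneg hS]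
  refine forall_congr' fun i => ?_
  have := hS i
  by_cases h1 : Nonempty (S i ≅ one)
  · refine ⟨fun _ => Or.inl h1, fun _ => ?_⟩
    obtain ⟨e⟩ := h1
    obtain ⟨Y, hY, ⟨e'⟩⟩ := hc.unit
    exact ⟨Y, hY, 0, S i, (e ≪≫ e'.symm).hom, 𝟙 _, inferInstance, inferInstance⟩
  · have hT : D.NotTate one (S i) := by
      intro a
      refine ⟨fun e => h1 ?_⟩
      obtain ⟨e'⟩ := hc.triv a
      exact ⟨e ≪≫ e'.app one⟩
    have h2 : (∃ Y : Sch k, SmoothProj Y ∧ ∃ j, D.Occ (S i) (D.H j Y)) ↔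
        ∃ (a b c : ℕ) (T : Fin a → Fin b → Fin c → k), ∃ j,
          D.Occ (S i) (D.G (j - 1) j (hypS T)) := (occ_iff h hT).out 0 2
    have h3 : D.Geometric (S i) ↔ ∃ (a b c : ℕ) (T : Fin a → Fin b → Fin c → k), ∃ j,
        Sub (S i) (D.G (j - 1) j (hypS T)) := by
      simp only [occ_triv hc] at h2
      exact h2
    rw [h3]
    exact ⟨Or.inr, fun h4 => h4.resolve_left h1⟩

end Pool.Agent.Q170.GO
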