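import Pool.Agent.Q170.GO.Occ

/-!
# Direct factors in semisimple categories
-/

set_option autoImplicit false

open CategoryTheory CategoryTheory.Limits

universe v u

namespace Pool.Agent.Q170.GO

variable {A : Type u} [Category.{v} A] [Abelian A]

/-- `S` is a direct factor of `M`. -/
def Factor (S M : A) : Prop := ∃ (s : S ⟶ M) (r : M ⟶ S), s ≫ r = 𝟙 S

/-- If all monomorphisms split, all epimorphisms split. -/
lemma split_epi (hss : ∀ {X Y : A} (f : X ⟶ Y), Mono f → ∃ r : Y ⟶ X, f ≫ r = 𝟙 X)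
    {X Y : A} (q : X ⟶ Y) (hq : Epi q) : ∃ s : Y ⟶ X, s ≫ q = 𝟙 Y := by
  obtain ⟨r, hr1⟩ := hss (kernel.ι q) inferInstance
  have h1 : kernel.ι q ≫ (𝟙 X - r ≫ kernel.ι q) = 0 := by
    rw [Preadditive.comp_sub, Category.comp_id, ← Category.assoc, hr1, Category.id_comp, sub_self]
  obtain ⟨s, hs⟩ : ∃ s : Y ⟶ X, q ≫ s = 𝟙 X - r ≫ kernel.ι q := by
    have h2 := Abelian.epiIsCokernelOfKernel (KernelFork.ofι (kernel.ι q) (kernel.condition q))
      (kernelIsKernel q)
    refine ⟨h2.desc (CokernelCofork.ofπ _ h1), ?_⟩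
    exact h2.fac _ WalkingParallelPair.one
  refine ⟨s, ?_⟩
  rw [← cancel_epi q, ← Category.assoc, hs, Preadditive.sub_comp, Category.id_comp,
    Category.assoc, kernel.condition, comp_zero, sub_zero, Category.comp_id]

/-- Subquotients are direct factors in a semisimple category. -/
lemma factor_iff (hss : ∀ {X Y : A} (f : X ⟶ Y), Mono f → ∃ r : Y ⟶ X, f ≫ r = 𝟙 X) (S M : A) :
    Sub S M ↔ Factor S M := by
  constructor
  · rintro ⟨N, i, q, hi, hq⟩
    obtain ⟨s, hs⟩ := split_epi hss q hq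
    have h1 : Mono s := mono_of_mono_fac hs
    have h2 : Mono (s ≫ i) := mono_comp _ _
    obtain ⟨r, hr⟩ := hss (s ≫ i) h2
    exact ⟨s ≫ i, r, hr⟩
  · rintro ⟨s, r, h⟩
    exact ⟨S, s, 𝟙 S, mono_of_mono_fac h, inferInstance⟩

end Pool.Agent.Q170.GO
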