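import Pool.Agent.Q193.LT.Defs
import Pool.Agent.Q148.LI.Wt

/-!
# Simple objects that occur as subquotients

For a simple object `S` of an abelian category the class of the objects `M` such that `S` is not a
subquotient of `M` is a Serre class.
-/

set_option autoImplicit false

open CategoryTheory CategoryTheory.Limits

universe v u

namespace Pool.Agent.Q170.GO

variable {A : Type u} [Category.{v} A] [Abelian A]

/-- `S` is (isomorphic to) a subquotient of `M`: a quotient of a subobject. -/
def Sub (S M : A) : Prop := ∃ (N : A) (i : N ⟶ M) (q : N ⟶ S), Mono i ∧ Epi q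

lemma Sub.mono {S X Y : A} (h : Sub S X) (f : X ⟶ Y) (hf : Mono f) : Sub S Y := by
  obtain ⟨N, i, q, hi, hq⟩ := h
  exact ⟨N, i ≫ f, q, mono_comp _ _, hq⟩

lemma Sub.epi {S X Y : A} (h : Sub S Y) (f : X ⟶ Y) (hf : Epi f) : Sub S X := by
  obtain ⟨N, i, q, hi, hq⟩ := h
  refine ⟨pullback f i, pullback.fst f i, pullback.snd f i ≫ q, inferInstance, ?_⟩
  have : Epi (pullback.snd f i) := inferInstance
  exact epi_comp _ _

lemma Sub.iso {S X Y : A} (h : Sub S X) (e : X ≅ Y) : Sub S Y := h.mono e.hom inferInstance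

lemma Sub.iso_left {S S' X : A} (h : Sub S X) (e : S ≅ S') : Sub S' X := by
  obtain ⟨N, i, q, hi, hq⟩ := h
  exact ⟨N, i, q ≫ e.hom, hi, epi_comp _ _⟩

lemma not_sub_zero {S X : A} [Simple S] (hX : IsZero X) : ¬ Sub S X := by
  rintro ⟨N, i, q, hi, hq⟩
  have h1 : IsZero N := hX.of_mono i
  have h2 : IsZero S := h1.of_epi q
  exact Simple.not_isZero S h2

/-- A simple subquotient of a simple object is isomorphic to it. -/
lemma sub_simple {S T : A} [Simple S] [Simple T] (h : Sub S T) : Nonempty (S ≅ T) := by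
  obtain ⟨N, i, q, hi, hq⟩ := h
  have hi0 : i ≠ 0 := by
    rintro rfl
    have h1 : IsZero N := by
      have h2 : 𝟙 N = 0 := by
        rw [← cancel_mono (0 : N ⟶ T)]
        simp
      exact (IsZero.iff_id_eq_zero N).mpr h2
    exact Simple.not_isZero S (h1.of_epi q)
  have h3 : IsIso i := isIso_of_mono_of_nonzero hi0
  have h4 : Epi (inv i ≫ q) := epi_comp _ _
  have h5 : inv i ≫ q ≠ 0 := by
    intro h5
    rw [h5] at h4
    have h6 : IsZero S := by
      have h7 : 𝟙 S = 0 := by
        rw [← cancel_epi (0 : T ⟶ S)]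
        simp
      exact (IsZero.iff_id_eq_zero S).mpr h7
    exact Simple.not_isZero S h6
  have h8 : IsIso (inv i ≫ q) := isIso_of_hom_simple h5
  exact ⟨(asIso (inv i ≫ q)).symm⟩

/-- A simple subquotient of the middle term of an exact sequence is a subquotient of one of the others. -/
lemma sub_mid {S X Y Z : A} [Simple S] {f : X ⟶ Y} {g : Y ⟶ Z} {w : f ≫ g = 0}
    (hex : (ShortComplex.mk f g w).Exact) (h : Sub S Y) : Sub S X ∨ Sub S Z := by
  obtain ⟨N, i, q, hi, hq⟩ := h
  let k := kernel.ι (i ≫ g)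
  by_cases hk : k ≫ q = 0
  · right
    -- `q` factors through the image of `i ≫ g`
    let c := Abelian.factorThruImage (i ≫ g)
    have hc : Epi c := inferInstance
    obtain ⟨s, hs⟩ : ∃ s : Abelian.image (i ≫ g) ⟶ S, c ≫ s = q := by
      have h1 : kernel.ι c ≫ q = 0 := by
        have h2 : kernel.ι c ≫ (i ≫ g) = 0 := by
          have h3 : c ≫ Abelian.image.ι (i ≫ g) = i ≫ g := Abelian.image.fac (i ≫ g)
          calc kernel.ι c ≫ (i ≫ g) = kernel.ι c ≫ (c ≫ Abelian.image.ι (i ≫ g)) := by rw [h3]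
            _ = 0 := by rw [← Category.assoc, kernel.condition, zero_comp]
        have h3 : kernel.ι c = kernel.lift (i ≫ g) _ h2 ≫ k := (kernel.lift_ι _ _ _).symm
        rw [h3, Category.assoc, hk, comp_zero]
      have h2 := Abelian.epiIsCokernelOfKernel (KernelFork.ofι (kernel.ι c) (kernel.condition c))
        (kernelIsKernel c)
      exact ⟨h2.desc (CokernelCofork.ofπ _ h1), h2.fac _ WalkingParallelPair.one⟩
    refine ⟨Abelian.image (i ≫ g), Abelian.image.ι (i ≫ g), s, inferInstance, ?_⟩
    have h4 : Epi (c ≫ s) := by rw [hs]; exact hq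
    exact epi_of_epi c s
  · left
    have h1 : Epi (k ≫ q) := epi_of_nonzero_to_simple hk
    -- `kernel (i ≫ g)` is a subobject of `kernel g`, which is a quotient of `X`
    have h2 : (k ≫ i) ≫ g = 0 := by rw [Category.assoc]; exact kernel.condition _
    have h3 : Sub S (kernel g) := by
      refine ⟨kernel (i ≫ g), kernel.lift g (k ≫ i) h2, k ≫ q, ?_, h1⟩
      have h4 : Mono (kernel.lift g (k ≫ i) h2 ≫ kernel.ι g) := by
        rw [kernel.lift_ι]
        exact mono_comp _ _
      exact mono_of_mono _ (kernel.ι g)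
    have he : Epi (kernel.lift g f w) := hex.epi_kernelLift
    exact h3.epi _ he

end Pool.Agent.Q170.GO
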